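import Pool.Agent.Work.MP_91103f_fd.Interface

/-!
# Block FR4: compatible frames everywhere
-/

set_option autoImplicit false

namespace Pool.TriFold.helper51

open Pool.Agent.Work.MP_91103f_co Pool.TriLev Pool.TriFold

theorem exists_parent {V : Type} {G : SimpleGraph V} (hc : G.Connected) (r x : V) (hx : x ≠ r) :
    ∃ p, Ch G r p x := by
  obtain ⟨w, hw⟩ := hc.exists_walk_length_eq_dist x r
  cases w with
  | nil => exact absurd rfl hx
  | @cons _ u _ h q =>
    refine ⟨u, h.symm, ?_⟩
    rw [SimpleGraph.Walk.length_cons] at hw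
    have h1 : G.dist u r ≤ q.length := SimpleGraph.dist_le q
    have h2 : G.dist x r ≤ G.dist x u + G.dist u r := hc.dist_triangle
    have h3 : G.dist x u = 1 := SimpleGraph.dist_eq_one_iff_adj.2 h
    rw [SimpleGraph.dist_comm (u := r) (v := x), SimpleGraph.dist_comm (u := r) (v := u)]
    omega

theorem Compat.symm' {V : Type} {F : Set (Finset V)} {x y : V} {D D' : V → ZMod 6}
    (h : Compat F x y D D') : Compat F y x D' D := by
  obtain ⟨h1, h2⟩ := h
  refine ⟨?_, fun w hw => ?_⟩
  · rw [h1, add_assoc]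
    have : (3 : ZMod 6) + 3 = 0 := by decide
    rw [this, add_zero]
  · rw [h2 w hw.swap, neg_neg]

/-- **Block FR4.** -/
theorem stmt_FR4 (hFR0 : Stmt_FR0) (hFR1 : Stmt_FR1) (hFR2 : Stmt_FR2) (hIND : Stmt_IND) :
    Stmt_FR4 := by
  classical
  intro V G F N hT hF
  haveI := hT.inf
  obtain ⟨r⟩ : Nonempty V := inferInstance
  -- a frame at the root
  obtain ⟨a0, b0, hab⟩ := hT.exists_flag r
  obtain ⟨D0, hD0, -, -⟩ := hFR0 hT hF r a0 b0 0 1 hab (Or.inl rfl)
  -- parents
  have hp : ∀ x, ∃ p, x ≠ r → Ch G r p x := by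
    intro x
    by_cases hx : x = r
    · exact ⟨x, fun h => absurd hx h⟩
    · obtain ⟨p, hp⟩ := exists_parent hT.conn r x hx
      exact ⟨p, fun _ => hp⟩
  choose p0 hp0 using hp
  -- continuation
  have hcont : ∀ (x y : V) (D : V → ZMod 6), ∃ D' : V → ZMod 6,
      G.Adj x y → IsFrame F N x D → IsFrame F N y D' ∧ Compat F x y D D' := by
    intro x y D
    by_cases h : G.Adj x y ∧ IsFrame F N x D
    · obtain ⟨D', h1, h2⟩ := hFR1 hT hF x y D h.1 h.2
      exact ⟨D', fun _ _ => ⟨h1, h2⟩⟩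
    · exact ⟨D, fun h1 h2 => absurd ⟨h1, h2⟩ h⟩
  choose cont hcont using hcont
  let E : ℕ → V → V → ZMod 6 := fun n =>
    Nat.rec (fun _ => D0) (fun _ En x => cont (p0 x) x (En (p0 x))) n
  have hE0 : ∀ x, E 0 x = D0 := fun x => rfl
  have hE1 : ∀ n x, E (n + 1) x = cont (p0 x) x (E n (p0 x)) := fun n x => rfl
  have hlev : ∀ x, x ≠ r → G.dist r x = G.dist r (p0 x) + 1 := fun x hx => (hp0 x hx).2
  have hfr : ∀ n x, G.dist r x = n → IsFrame F N x (E n x) := by
    intro n
    induction n with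
    | zero =>
      intro x hx
      have hxr : r = x := by
        rcases SimpleGraph.dist_eq_zero_iff_eq_or_not_reachable.1 hx with h | h
        · exact h
        · exact absurd (hT.conn.preconnected r x) h
      subst hxr
      rw [hE0]
      exact hD0
    | succ n ih =>
      intro x hx
      have hxr : x ≠ r := by
        rintro rfl
        rw [SimpleGraph.dist_self] at hx
        omega
      have h1 := hlev x hxr
      rw [hE1]
      exact (hcont (p0 x) x (E n (p0 x)) (hp0 x hxr).1 (ih (p0 x) (by omega))).1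
  have hcomp : ∀ x, x ≠ r → Compat F (p0 x) x (E (G.dist r (p0 x)) (p0 x)) (E (G.dist r x) x) := by
    intro x hx
    rw [hlev x hx, hE1]
    exact (hcont (p0 x) x _ (hp0 x hx).1 (hfr _ (p0 x) rfl)).2
  refine ⟨fun x => E (G.dist r x) x, fun x => hfr _ x rfl, ?_⟩
  apply hIND hT r (fun x y => Compat F x y (E (G.dist r x) x) (E (G.dist r y) y))
  · intro x y _ h
    exact Compat.symm' h
  · intro w x y ht h1 h2
    exact hFR2 hT w x y _ _ _ ht (hfr _ w rfl) (hfr _ x rfl) (hfr _ y rfl) h1 h2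
  · intro x hx
    exact ⟨p0 x, hp0 x hx, hcomp x hx⟩

end Pool.TriFold.helper51
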